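import Pool.Agent.H249R4.Wd3

/-!
# MP_231d99_co: monochromatic concatenations of factors with bounded gaps

For every infinite word `x` over any alphabet there is a colouring of the finite words with
`16385` colours which admits, for no `C`, a `C`-good sequence of factors of `x`; it is enough to
ask that the words `u i` and the products `u i ++ u j` (`i < j`) have one colour.
-/

namespace Pool.Agent.Results.MP_231d99_co.BoundedGaps

variable {X : Type*}

/-- The finite word `u` is the block `x n, x (n + 1), …, x (n + |u| - 1)`. -/
def StandsAt (x : ℕ → X) (u : List X) (n : ℕ) : Prop :=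
  ∀ (k : ℕ) (h : k < u.length), x (n + k) = u[k]

/-- Factors of `x`: nonempty finite words that stand at some position. -/
def IsFactor (x : ℕ → X) (u : List X) : Prop := u ≠ [] ∧ ∃ n, StandsAt x u n

/-- The least position at which `u` stands. -/
noncomputable def A (x : ℕ → X) (u : List X) : ℕ := sInf {n | StandsAt x u n}

/-- The first position after the first occurrence of `u`. -/
noncomputable def B (x : ℕ → X) (u : List X) : ℕ := A x u + u.length

/-- `C`-good sequences `u 0, u 1, …` for the colouring `χ`: factors, with
`0 ≤ A (u (n+1)) - B (u n) ≤ C`, and `χ` is constant on all the products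
`u k₁ u k₂ ⋯ u kₘ` with `m ≥ 1` and `k₁ < k₂ < ⋯ < kₘ`. -/
structure Good (x : ℕ → X) {K : Type} (χ : List X → K) (C : ℕ) (u : ℕ → List X) : Prop where
  factor : ∀ n, IsFactor x (u n)
  gap_nonneg : ∀ n, B x (u n) ≤ A x (u (n + 1))
  gap_le : ∀ n, A x (u (n + 1)) ≤ B x (u n) + C
  mono : ∃ κ : K, ∀ s : List ℕ, s ≠ [] → s.Pairwise (· < ·) → χ ((s.map u).flatten) = κ

/-- The same with products of at most two blocks only. -/
structure PairGood (x : ℕ → X) {K : Type} (χ : List X → K) (C : ℕ) (u : ℕ → List X) : Prop where
  factor : ∀ n, IsFactor x (u n)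
  gap_nonneg : ∀ n, B x (u n) ≤ A x (u (n + 1))
  gap_le : ∀ n, A x (u (n + 1)) ≤ B x (u n) + C
  mono : ∃ κ : K, (∀ n, χ (u n) = κ) ∧ ∀ i j, i < j → χ (u i ++ u j) = κ

open Pool.Agent.H249R4.Wd

lemma A_spec {x : ℕ → X} {u : List X} (h : IsFactor x u) : StandsAt x u (A x u) :=
  Nat.sInf_mem (s := {n | StandsAt x u n}) h.2

lemma A_first {x : ℕ → X} {u : List X} (h : IsFactor x u) : First x (A x u) u.length := by
  intro t ht hocc
  have : StandsAt x u t := by
    intro k hk
    rw [← hocc k hk]
    exact A_spec h k hk
  have h2 : A x u ≤ t := Nat.sInf_le this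
  omega

lemma Good.pair {x : ℕ → X} {K : Type} {χ : List X → K} {C : ℕ} {u : ℕ → List X}
    (h : Good x χ C u) : PairGood x χ C u := by
  refine ⟨h.factor, h.gap_nonneg, h.gap_le, ?_⟩
  obtain ⟨κ, hκ⟩ := h.mono
  refine ⟨κ, fun n => ?_, fun i j hij => ?_⟩
  · have := hκ [n] (by simp) (by simp)
    simpa using this
  · have := hκ [i, j] (by simp) (by simpa using hij)
    simpa using this

open Classical in
/-- the colouring before renaming the colours -/
noncomputable def col (x : ℕ → X) (u : List X) : Option K0 :=
  if IsFactor x u then some (F x (A x u) u.length) else none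

lemma no_pairGood (x : ℕ → X) (C : ℕ) (u : ℕ → List X) : ¬ PairGood x (col x) C u := by
  intro h
  obtain ⟨κ, hκ1, hκ2⟩ := h.mono
  have e1 : ∀ n, col x (u n) = some (F x (A x (u n)) (u n).length) := fun n => by
    unfold col; rw [if_pos (h.factor n)]
  have e2 : κ = some (F x (A x (u 0)) (u 0).length) := by rw [← hκ1 0, e1]
  have hfac : ∀ i j, i < j → IsFactor x (u i ++ u j) := by
    intro i j hij
    by_contra hcon
    have := hκ2 i j hij
    unfold col at this
    rw [if_neg hcon, e2] at this
    exact absurd this (by simp)
  have e3 : ∀ i j, i < j → col x (u i ++ u j) =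
      some (F x (A x (u i ++ u j)) ((u i).length + (u j).length)) := fun i j hij => by
    unfold col; rw [if_pos (hfac i j hij), List.length_append]
  refine core x C (fun n => A x (u n)) (fun n => (u n).length) (fun i j => A x (u i ++ u j))
    ?_ ?_ ?_ ?_ ?_ ?_ (F x (A x (u 0)) (u 0).length) ?_ ?_
  · intro j
    exact List.length_pos_iff.2 (h.factor j).1
  · intro j
    exact A_first (h.factor j)
  · intro j
    exact h.gap_nonneg j
  · intro j
    exact h.gap_le j
  · intro i j hij k hk
    have h1 := A_spec (hfac i j hij) k (by rw [List.length_append]; omega)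
    have h2 := A_spec (h.factor i) k hk
    rw [h1, h2, List.getElem_append_left hk]
  · intro i j hij k hk
    have h1 := A_spec (hfac i j hij) ((u i).length + k) (by rw [List.length_append]; omega)
    have h2 := A_spec (h.factor j) k hk
    rw [← Nat.add_assoc] at h1
    rw [h1, h2, List.getElem_append_right (by omega)]
    simp
  · intro j
    have := hκ1 j
    rw [e1 j, e2] at this
    exact Option.some.inj this
  · intro i j hij
    have := hκ2 i j hij
    rw [e3 i j hij, e2] at this
    exact Option.some.inj this

lemma card_K0 : Fintype.card (Option K0) = 16385 := by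
  simp [Fintype.card_option, Fintype.card_prod]

/-- **Q1, answered in the affirmative**, for every infinite word over every alphabet, with a
number of colours that does not depend on the word, and already for products of at most two
blocks. -/
theorem result {X : Type*} (x : ℕ → X) :
    ∃ χ : List X → Fin 16385,
      (∀ (C : ℕ) (u : ℕ → List X), ¬ Good x χ C u) ∧
      (∀ (C : ℕ) (u : ℕ → List X), ¬ PairGood x χ C u) := by
  let e : Option K0 ≃ Fin 16385 := Fintype.equivFinOfCardEq card_K0
  have key : ∀ (C : ℕ) (u : ℕ → List X), ¬ PairGood x (fun w => e (col x w)) C u := by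
    intro C u h
    apply no_pairGood x C u
    refine ⟨h.factor, h.gap_nonneg, h.gap_le, ?_⟩
    obtain ⟨κ, h1, h2⟩ := h.mono
    refine ⟨e.symm κ, fun n => ?_, fun i j hij => ?_⟩
    · rw [← h1 n]; simp
    · rw [← h2 i j hij]; simp
  exact ⟨fun w => e (col x w), fun C u h => key C u h.pair, key⟩

end Pool.Agent.Results.MP_231d99_co.BoundedGaps
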